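import Pool.Agent.TD.Base

/-!
# Statement layer: forms as families of local forms (MP_90358a_ag)

A form of type `(p,q)` on a space with log functions is a family `c z` of local forms near `z`,
such that `c z` and `c z'` agree at `z'` for `z'` near `z`.
-/

open scoped ContDiff Topology

namespace Pool.Agent.TD

/-- `θ` is the pull-back along `r` of a smooth superform of type `(p,q)` on `V`. -/
def SFv {Φ : Type} {p q : ℕ} (V : Type) [NormedAddCommGroup V] [NormedSpace ℝ V]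
    (r : (Φ → ℝ) → V) (θ : Raw Φ p q) : Prop :=
  ∃ α : SForm V p q, ContDiff ℝ ∞ α ∧
    ∀ x w v, θ x w v = α (r x) (fun i => r (w i)) (fun j => r (v j))

/-- `θ` vanishes on `P`: at all points of convex subsets `σ` of `P`, on all vectors tangent to
`σ`. -/
def Vanv {Φ : Type} {p q : ℕ} (V : Type) [AddCommGroup V] [Module ℝ V]
    (r : (Φ → ℝ) → V) (θ : Raw Φ p q) (P : Set V) : Prop :=
  ∀ σ : Set V, Convex ℝ σ → σ ⊆ P → ∀ (x : Φ → ℝ) (w : Fin q → Φ → ℝ) (v : Fin p → Φ → ℝ),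
    r x ∈ σ → (∀ i, r (w i) ∈ vectorSpan ℝ σ) → (∀ j, r (v j) ∈ vectorSpan ℝ σ) → θ x w v = 0

namespace LogSpace

variable {X Φ : Type} [TopologicalSpace X] (L : LogSpace X Φ) {p q : ℕ}

/-- `θ` is a form near `z`: a smooth superform in finitely many `lf f`, defined at `z`. -/
def FormAt (z : X) (θ : Raw Φ p q) : Prop :=
  ∃ s : Finset Φ, SFv (s → ℝ) (rs s) θ ∧ ∀ f ∈ s, z ∈ L.dom f

/-- `θ` is zero at `z`: after adding finitely many functions, `θ` vanishes on the image of a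
neighbourhood of `z`. -/
def ZeroAt (z : X) (θ : Raw Φ p q) : Prop :=
  ∃ u : Finset Φ, SFv (u → ℝ) (rs u) θ ∧ ∃ V ∈ 𝓝 z, (∀ f ∈ u, V ⊆ L.dom f) ∧
    Vanv (u → ℝ) (rs u) θ (L.trop u '' V)

/-- Forms of type `(p,q)`. -/
def IsForm (c : X → Raw Φ p q) : Prop :=
  (∀ z, L.FormAt z (c z)) ∧ ∀ z, ∀ᶠ z' in 𝓝 z, L.ZeroAt z' (c z' - c z)

/-- The form `c` has compact support. -/
def Cpt (c : X → Raw Φ p q) : Prop := ∃ C : Set X, IsCompact C ∧ ∀ z, z ∉ C → L.ZeroAt z (c z)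

/-- Closed forms. -/
def Closed (c : X → Raw Φ p q) : Prop := L.IsForm c ∧ ∀ z, L.ZeroAt z (dd (c z))

/-- `c` is `d''` of a form (in type `(p,0)`: `c` is zero). -/
def Exact : {q : ℕ} → (X → Raw Φ p q) → Prop
  | 0, c => ∀ z, L.ZeroAt z (c z)
  | q + 1, c => ∃ e : X → Raw Φ p q, L.IsForm e ∧ ∀ z, L.ZeroAt z (c z - dd (e z))

/-- `c` is `d''` of a form with compact support (in type `(p,0)`: `c` is zero). -/
def ExactC : {q : ℕ} → (X → Raw Φ p q) → Prop
  | 0, c => ∀ z, L.ZeroAt z (c z)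
  | q + 1, c => ∃ e : X → Raw Φ p q, L.IsForm e ∧ L.Cpt e ∧ ∀ z, L.ZeroAt z (c z - dd (e z))

end LogSpace

/-- `pb` induces an isomorphism `H^{p,q}(L') → H^{p,q}(L)`, `H^{p,q}` = closed forms modulo exact
forms. -/
structure IsoH {X Φ X' Φ' : Type} [TopologicalSpace X] [TopologicalSpace X']
    (L' : LogSpace X' Φ') (L : LogSpace X Φ) {p q : ℕ}
    (pb : (X' → Raw Φ' p q) → X → Raw Φ p q) : Prop where
  closed : ∀ a, L'.Closed a → L.Closed (pb a)
  exact_iff : ∀ a, L'.Closed a → (L.Exact (pb a) ↔ L'.Exact a)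
  surj : ∀ c, L.Closed c → ∃ a, L'.Closed a ∧ L.Exact (c - pb a)

/-- `pb` induces an isomorphism `H_c^{p,q}(L') → H_c^{p,q}(L)`, `H_c^{p,q}` = closed forms with
compact support modulo `d''` of forms with compact support. -/
structure IsoHc {X Φ X' Φ' : Type} [TopologicalSpace X] [TopologicalSpace X']
    (L' : LogSpace X' Φ') (L : LogSpace X Φ) {p q : ℕ}
    (pb : (X' → Raw Φ' p q) → X → Raw Φ p q) : Prop where
  closed : ∀ a, L'.Closed a → L'.Cpt a → L.Closed (pb a) ∧ L.Cpt (pb a)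
  exact_iff : ∀ a, L'.Closed a → L'.Cpt a → (L.ExactC (pb a) ↔ L'.ExactC a)
  surj : ∀ c, L.Closed c → L.Cpt c → ∃ a, L'.Closed a ∧ L'.Cpt a ∧ L.ExactC (c - pb a)

end Pool.Agent.TD
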