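import Pool.Agent.TD.S.Forms
import Pool.Agent.TD.Y.Map

/-! # Statement layer: pull back of forms from `Trop(Y)` to `Y^an` -/

open scoped ContDiff Topology
open AlgebraicGeometry CategoryTheory

namespace Pool.Agent.TD

namespace Toric

variable {K : Type} [NormedField K] {n : ℕ} {F : Fan n} {Y : Scheme.{0}} {ι : Str K Y}
  (T : Toric F Y ι)

open Classical in
/-- The character `χ^m` as a function near the point `z` of `Y^an`, on the smallest chart `U_σ`
which contains `z` (`1` if `m` is not in `σ^⊥`). -/
noncomputable def cix (z : An Y ι) (m : Fin n → ℤ) : Fns Y :=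
  ⟨T.U (T.minCone z.pt), if h : m ∈ perpM (T.minCone z.pt).1 then
    T.chi (T.minCone z.pt) ⟨m, TropPt.perp_dual h⟩ else 1⟩

/-- Pull back of forms along the tropicalization map: `log |χ^m|` goes to `log |χ^m|`. -/
noncomputable def pb {p q : ℕ} (a : TropPt F → Raw (Fin n → ℤ) p q) : An Y ι → Raw (Fns Y) p q :=
  fun z => pullR (T.cix z) (a (T.trop z))

end Toric

end Pool.Agent.TD
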