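import Pool.Agent.TD.S.Forms
import Pool.Agent.TD.Y.Coh

/-! # Statement layer: comparison with the global sections of the sheaves of forms -/

open scoped ContDiff Topology

namespace Pool.Agent.TD

namespace LogSpace

variable {X Φ : Type} [TopologicalSpace X] (L : LogSpace X Φ) {p q : ℕ} {z : X}

/-- The section defined by a form. -/
noncomputable def sec (c : X → Raw Φ p q) (hc : L.IsForm c) : L.G p q :=
  ⟨fun z => L.germ (c z) (hc.1 z), fun z => ⟨c z, ((hc.2 z).and (SFat.nhds L (hc.1 z))).mono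
    fun _ h => ⟨h.2, (L.germ_eq_iff _ _).2 h.1⟩⟩⟩

theorem sec_val (c : X → Raw Φ p q) (hc : L.IsForm c) (z : X) :
    (L.sec c hc).1 z = L.germ (c z) (hc.1 z) := rfl

theorem exists_sec (g : L.G p q) : ∃ c, ∃ hc : L.IsForm c, L.sec c hc = g := by
  choose c hc e using fun z => L.exists_germ (g.1 z)
  refine ⟨c, ⟨hc, fun z => ?_⟩, ?_⟩
  · obtain ⟨θ, hθ⟩ := g.2 z
    obtain ⟨h0, e0⟩ := hθ.self_of_nhds
    have h1 : L.Van z (c z - θ) := (L.germ_eq_iff (hc z) h0).1 ((e z).trans e0)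
    filter_upwards [hθ, Van.nhds L h1, SFat.nhds L (hc z)] with z' h2 h3 h4
    obtain ⟨h5, e5⟩ := h2
    have h6 : L.germ (c z') (hc z') = L.germ (c z) h4 := by
      rw [e z', e5]
      exact ((L.germ_eq_iff h4 h5).2 h3).symm
    exact (L.germ_eq_iff _ _).1 h6
  · apply Subtype.ext
    funext z
    exact e z

theorem IsForm.near {c : X → Raw Φ p q} (hc : L.IsForm c) (z : X) :
    ∀ᶠ z' in 𝓝 z, ∃ h : L.SFat z' (c z), L.germ (c z') (hc.1 z') = L.germ (c z) h :=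
  ((hc.2 z).and (SFat.nhds L (hc.1 z))).mono fun _ h => ⟨h.2, (L.germ_eq_iff _ _).2 h.1⟩

theorem IsForm.sub {c c' : X → Raw Φ p q} (h : L.IsForm c) (h' : L.IsForm c') :
    L.IsForm (c - c') := by
  refine ⟨fun z => SFat.sub (h.1 z) (h'.1 z), fun z => ?_⟩
  filter_upwards [h.near L z, h'.near L z] with z' h1 h2
  obtain ⟨k1, e1⟩ := h1
  obtain ⟨k2, e2⟩ := h2
  refine (L.germ_eq_iff (SFat.sub (h.1 z') (h'.1 z')) (SFat.sub k1 k2)).1 ?_
  rw [L.germ_sub (h.1 z') (h'.1 z'), L.germ_sub k1 k2, e1, e2]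

theorem sec_sub {c c' : X → Raw Φ p q} (h : L.IsForm c) (h' : L.IsForm c') :
    L.sec (c - c') (IsForm.sub L h h') = L.sec c h - L.sec c' h' := by
  apply Subtype.ext
  funext z
  exact L.germ_sub (h.1 z) (h'.1 z)

theorem IsForm.dd {c : X → Raw Φ p q} (h : L.IsForm c) : L.IsForm (fun z => TD.dd (c z)) := by
  refine ⟨fun z => SFat.dd L (h.1 z), fun z => ?_⟩
  filter_upwards [h.near L z] with z' h1
  obtain ⟨k1, e1⟩ := h1
  refine (L.germ_eq_iff (SFat.dd L (h.1 z')) (SFat.dd L k1)).1 ?_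
  rw [← L.ddS_germ (h.1 z'), ← L.ddS_germ k1, e1]

theorem sec_dd {c : X → Raw Φ p q} (h : L.IsForm c) :
    L.sec (fun z => TD.dd (c z)) (IsForm.dd L h) = L.ddG p q (L.sec c h) := rfl

theorem sec_eq_zero {c : X → Raw Φ p q} (h : L.IsForm c) :
    L.sec c h = 0 ↔ ∀ z, L.Van z (c z) := by
  constructor
  · intro e z
    have h1 : (L.sec c h).1 z = 0 := by rw [e]; rfl
    exact (L.germ_eq_zero (h.1 z)).1 h1
  · intro e
    apply Subtype.ext
    funext z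
    exact (L.germ_eq_zero (h.1 z)).2 (e z)

theorem sec_eq {c c' : X → Raw Φ p q} (h : L.IsForm c) (h' : L.IsForm c') :
    L.sec c h = L.sec c' h' ↔ ∀ z, L.Van z (c z - c' z) := by
  rw [← sub_eq_zero, ← L.sec_sub h h', L.sec_eq_zero]
  rfl

theorem closed_iff {c : X → Raw Φ p q} (hc : L.IsForm c) :
    L.Closed c ↔ L.sec c hc ∈ L.Zf p q := by
  have h1 : L.sec c hc ∈ L.Zf p q ↔ L.ddG p q (L.sec c hc) = 0 := Iff.rfl
  rw [h1, ← L.sec_dd hc, L.sec_eq_zero]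
  exact ⟨fun h => h.2, fun h => ⟨hc, h⟩⟩

theorem exact_iff {c : X → Raw Φ p q} (hc : L.IsForm c) :
    L.Exact c ↔ L.sec c hc ∈ L.Bf p q := by
  rcases q with _ | q
  · exact (L.sec_eq_zero hc).symm
  · constructor
    · rintro ⟨e, he, h⟩
      exact ⟨L.sec e he, ((L.sec_eq hc (IsForm.dd L he)).2 h).symm⟩
    · rintro ⟨g, hg⟩
      obtain ⟨e, he, rfl⟩ := L.exists_sec g
      exact ⟨e, he, (L.sec_eq hc (IsForm.dd L he)).1 hg.symm⟩

theorem cpt_iff {c : X → Raw Φ p q} (hc : L.IsForm c) : L.Cpt c ↔ L.sec c hc ∈ L.Gc p q := by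
  constructor
  · rintro ⟨C, hC, h⟩
    exact ⟨C, hC, fun z hz => (L.germ_eq_zero (hc.1 z)).2 (h z hz)⟩
  · rintro ⟨C, hC, h⟩
    exact ⟨C, hC, fun z hz => (L.germ_eq_zero (hc.1 z)).1 (h z hz)⟩

theorem exactC_iff {c : X → Raw Φ p q} (hc : L.IsForm c) :
    L.ExactC c ↔ L.sec c hc ∈ L.Bc p q := by
  rcases q with _ | q
  · exact (L.sec_eq_zero hc).symm
  · constructor
    · rintro ⟨e, he, hec, h⟩
      exact ⟨L.sec e he, (L.cpt_iff he).1 hec, ((L.sec_eq hc (IsForm.dd L he)).2 h).symm⟩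
    · rintro ⟨g, hgc, hg⟩
      obtain ⟨e, he, rfl⟩ := L.exists_sec g
      exact ⟨e, he, (L.cpt_iff he).2 hgc, (L.sec_eq hc (IsForm.dd L he)).1 hg.symm⟩

end LogSpace

section iso

variable {X Φ X' Φ' : Type} [TopologicalSpace X] [TopologicalSpace X'] {L : LogSpace X Φ}
  {L' : LogSpace X' Φ'} (m : Mor L L') {p q : ℕ} (pb : (X' → Raw Φ' p q) → X → Raw Φ p q)

/-- `pb a` represents the pull back of `a` along `m`. -/
def Reps : Prop := ∀ a, L'.IsForm a → ∀ z, L.Van z (pb a z - pullR m.ix (a (m.toFun z)))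

variable {m pb}

theorem Reps.isForm (h : Reps m pb) {a : X' → Raw Φ' p q} (ha : L'.IsForm a) :
    L.IsForm (pb a) := by
  have h1 : ∀ z, L.SFat z (pb a z) := by
    intro z
    have e : pb a z = (pb a z - pullR m.ix (a (m.toFun z))) + pullR m.ix (a (m.toFun z)) :=
      (sub_add_cancel _ _).symm
    rw [e]
    exact (LogSpace.Van.sfat L (h a ha z)).add (m.sfat (ha.1 _))
  refine ⟨h1, fun z => ?_⟩
  have h2 := m.cont.continuousAt.eventually (ha.near L' (m.toFun z))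
  filter_upwards [h2, LogSpace.Van.nhds L (h a ha z), LogSpace.SFat.nhds L (h1 z)] with z' k1 k2 k3
  obtain ⟨k4, e4⟩ := k1
  refine (L.germ_eq_iff (h1 z') k3).1 ?_
  rw [(L.germ_eq_iff (h1 z') (m.sfat (ha.1 _))).2 (h a ha z'),
    (L.germ_eq_iff k3 (m.sfat k4)).2 k2]
  have := congrArg (m.pullS p q z') e4
  rwa [m.pullS_germ, m.pullS_germ] at this

theorem Reps.sec (h : Reps m pb) {a : X' → Raw Φ' p q} (ha : L'.IsForm a) :
    L.sec (pb a) (h.isForm ha) = m.pullG p q (L'.sec a ha) := by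
  apply Subtype.ext
  funext z
  rw [LogSpace.sec_val, Mor.pullG_val, LogSpace.sec_val, m.pullS_germ]
  exact (L.germ_eq_iff _ _).2 (h a ha z)

theorem isoH_of (h : Reps m pb)
    (h1 : ∀ c ∈ L.Zf p q, ∃ a ∈ L'.Zf p q, c - m.pullG p q a ∈ L.Bf p q)
    (h2 : ∀ a ∈ L'.Zf p q, m.pullG p q a ∈ L.Bf p q → a ∈ L'.Bf p q) : IsoH L' L pb where
  closed a ha := by
    rw [L.closed_iff (h.isForm ha.1), h.sec ha.1]
    exact m.pullG_Z ((L'.closed_iff ha.1).1 ha)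
  exact_iff a ha := by
    rw [L.exact_iff (h.isForm ha.1), L'.exact_iff ha.1, h.sec ha.1]
    exact ⟨h2 _ ((L'.closed_iff ha.1).1 ha), fun k => m.pullG_B k⟩
  surj c hc := by
    obtain ⟨g, hg, hb⟩ := h1 (L.sec c hc.1) ((L.closed_iff hc.1).1 hc)
    obtain ⟨a, ha, rfl⟩ := L'.exists_sec g
    refine ⟨a, (L'.closed_iff ha).2 hg, ?_⟩
    rw [L.exact_iff (LogSpace.IsForm.sub L hc.1 (h.isForm ha)), L.sec_sub hc.1 (h.isForm ha),
      h.sec ha]
    exact hb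

theorem isoHc_of (h : Reps m pb) (hm : m.IsProp)
    (h1 : ∀ c ∈ L.Zc p q, ∃ a ∈ L'.Zc p q, c - m.pullG p q a ∈ L.Bc p q)
    (h2 : ∀ a ∈ L'.Zc p q, m.pullG p q a ∈ L.Bc p q → a ∈ L'.Bc p q) : IsoHc L' L pb where
  closed a ha hac := by
    rw [L.closed_iff (h.isForm ha.1), L.cpt_iff (h.isForm ha.1), h.sec ha.1]
    exact ⟨m.pullG_Z ((L'.closed_iff ha.1).1 ha), Mor.pullG_Gc hm ((L'.cpt_iff ha.1).1 hac)⟩
  exact_iff a ha hac := by
    rw [L.exactC_iff (h.isForm ha.1), L'.exactC_iff ha.1, h.sec ha.1]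
    exact ⟨h2 _ ⟨(L'.closed_iff ha.1).1 ha, (L'.cpt_iff ha.1).1 hac⟩, fun k => Mor.pullG_Bc hm k⟩
  surj c hc hcc := by
    obtain ⟨g, hg, hb⟩ := h1 (L.sec c hc.1)
      ⟨(L.closed_iff hc.1).1 hc, (L.cpt_iff hc.1).1 hcc⟩
    obtain ⟨a, ha, rfl⟩ := L'.exists_sec g
    refine ⟨a, (L'.closed_iff ha).2 hg.1, (L'.cpt_iff ha).2 hg.2, ?_⟩
    rw [L.exactC_iff (LogSpace.IsForm.sub L hc.1 (h.isForm ha)), L.sec_sub hc.1 (h.isForm ha),
      h.sec ha]
    exact hb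

end iso

end Pool.Agent.TD
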