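import Pool.Agent.TD.S.Toric
import Pool.Agent.TD.S.Bridge
import Pool.Agent.TD.F.Final

/-! # Statement layer: the theorem for toric varieties -/

open scoped ContDiff Topology
open AlgebraicGeometry CategoryTheory

namespace Pool.Agent.TD

namespace Toric

variable {K : Type} [NormedField K] {n : ℕ} {F : Fan n} {Y : Scheme.{0}} {ι : Str K Y}
  (T : Toric F Y ι)

theorem reps_pb {p q : ℕ} : Reps T.tropMor (T.pb (p := p) (q := q)) := by
  classical
  intro a ha z
  obtain ⟨s, hs, hd⟩ := ha.1 (T.trop z)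
  have hzU := T.mem_minCone z.pt
  have h1 : ∀ f ∈ s, z ∈ (anLS Y ι).dom (T.cix z f) := by
    intro f hf
    have h2 : f ∈ perpM (T.minCone z.pt).1 := hd f hf
    refine ⟨hzU, ?_⟩
    unfold cix
    simp only [dif_pos h2]
    exact T.absv_chi_ne_zero h2 hzU
  have h2 : ∀ f ∈ s, z ∈ (anLS Y ι).dom (T.tropMor.ix f) := fun f hf =>
    T.tropMor.dom_sub f z (hd f hf)
  have h3 : ∀ f ∈ s, ∀ᶠ z' in 𝓝 z, (anLS Y ι).lf (T.cix z f) z' =
      (anLS Y ι).lf (T.tropMor.ix f) z' := by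
    intro f hf
    have h4 : f ∈ perpM (T.minCone z.pt).1 := hd f hf
    filter_upwards [(An.isOpen_opn (T.U (T.minCone z.pt))).mem_nhds hzU] with z' hz'
    show Real.log (An.absv _ (T.cix z f).2 z') =
      Real.log (An.absv (T.Um f) (T.chiU f) z')
    unfold cix
    simp only [dif_pos h4]
    rw [T.absv_chiU h4 hz']
  have hs' : IsSF s (a (T.trop z)) := hs
  have k1 : (anLS Y ι).SFat z (pullR (T.cix z) (a (T.trop z))) := by
    classical
    refine ⟨s.image (T.cix z), hs'.pullR, ?_⟩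
    intro f hf
    obtain ⟨g, hg, rfl⟩ := Finset.mem_image.1 hf
    exact h1 g hg
  have k2 : (anLS Y ι).SFat z (pullR T.tropMor.ix (a (T.trop z))) :=
    T.tropMor.sfat (ha.1 (T.trop z))
  exact ((anLS Y ι).germ_eq_iff k1 k2).1
    ((anLS Y ι).germ_pullR_congr (T.cix z) T.tropMor.ix hs' h1 h2 h3 k1 k2)

/-- The tropicalization map induces isomorphisms on Dolbeault cohomology. -/
theorem isoH [IsUltrametricDist K] (p q : ℕ) :
    IsoH (tropLS F) (anLS Y ι) (T.pb (p := p) (q := q)) ∧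
      IsoHc (tropLS F) (anLS Y ι) (T.pb (p := p) (q := q)) := by
  obtain ⟨⟨h1, h2⟩, h3, h4⟩ := T.stage1_forms (f2 K) p q
  exact ⟨isoH_of T.reps_pb h1 h2, isoHc_of T.reps_pb T.isProp h3 h4⟩

end Toric

end Pool.Agent.TD
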